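import Pool.Agent.W622.ETG.Lin

/-!
# ELG-ST0: in a minimal configuration `ann b` is not a cone-like family with apex `p`
-/

set_option autoImplicit false

namespace Pool.Agent.W589.ELG
open Pool.Agent.W622.ETG Module

theorem finrank_pair {V : Type} [AddCommGroup V] [Module (ZMod 2) V] [Finite V] {X : DSub V}
    {p g : Dl V} (h : X ≤ Submodule.span (ZMod 2) {p, g}) : finrank (ZMod 2) X ≤ 2 := by
  classical
  refine (Submodule.finrank_mono h).trans ?_
  have h1 : ({p, g} : Set (Dl V)) = (({p, g} : Finset (Dl V)) : Set (Dl V)) := by simp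
  rw [h1]
  exact (finrank_span_finset_le_card _).trans Finset.card_le_two

theorem aez {M : Type*} [AddCommGroup M] [Module (ZMod 2) M] {v w : M} : v + w = 0 ↔ v = w :=
  Pool.Agent.W622.ETC.add_eq_zero'

theorem supp_le' {V : Type} [AddCommGroup V] [Module (ZMod 2) V] {A : Fam V} {X : DSub V} :
    supp A ≤ X ↔ ∀ ω ∈ A, ∀ a, ω a ∈ X := Pool.Agent.W622.ETC.supp_le

theorem frm_cancel {V : Type} [AddCommGroup V] [Module (ZMod 2) V] (η ω : Frm V) :
    η + ω + ω = η := by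
  refine LinearMap.ext fun v => ?_
  rw [LinearMap.add_apply, LinearMap.add_apply]
  exact Pool.Agent.W622.ETC.add_cancel' _ _

theorem frm_span {V : Type} [AddCommGroup V] [Module (ZMod 2) V] {η ω : Frm V}
    (h : η ∈ Submodule.span (ZMod 2) {ω}) : η = 0 ∨ η = ω := by
  obtain ⟨a, rfl⟩ := Submodule.mem_span_singleton.1 h
  rcases z01 a with rfl | rfl
  · left
    exact zero_smul _ _
  · right
    exact one_smul _ _

theorem t_ST0 (hRIG : S_RIG) (hNF : S_NF) (hSPLIT : S_SPLIT) : S_ST0 := by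
  intro V _ _ _ e A b p hMC hb hp hpb hpe hw
  have hsymm : ∀ ω ∈ A, ∀ u v, ω u v = ω v u := fun ω hω => (hMC.ef ω hω).symm
  have F2 : ∀ x, p x = 1 → (∃ ω₀ ∈ A, ω₀ b x = 1) →
      ∀ f : Dl V, f (x + e) = 0 → ∃ ω ∈ A, ω x = f := by
    rintro x hpx ⟨ω₀, hω₀, hωx⟩ f hf
    have hfx : f x = f e := by
      rw [map_add] at hf
      exact aez.mp hf
    rcases z01 (f b) with h0 | h0
    · exact ⟨wd e p f, hw f h0, wd_val_one hpx hfx⟩
    · have h5 : (f + ω₀ x) b = 0 := by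
        rw [LinearMap.add_apply, h0, hsymm ω₀ hω₀, hωx, zadd]
      have h6 : (f + ω₀ x) x = (f + ω₀ x) e := by
        have := (hMC.ef ω₀ hω₀).sq x
        rw [LinearMap.add_apply, LinearMap.add_apply, hfx, this]
      refine ⟨wd e p (f + ω₀ x) + ω₀, A.add_mem (hw _ h5) hω₀, ?_⟩
      rw [LinearMap.add_apply, wd_val_one hpx h6, add_cancel']
  obtain ⟨x₀, hx₀⟩ : ∃ x₀, p x₀ = 1 := by
    by_contra hc
    push Not at hc
    exact hp (LinearMap.ext fun y => z_ne' (hc y))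
  have star : ∀ x, p x = 1 → (∀ ω ∈ A, ω b x = 0) ∨ (∀ ω ∈ A, ω b (x + e) = 0) := by
    intro x hpx
    by_contra hc
    push Not at hc
    obtain ⟨⟨ω₁, hω₁, h1⟩, ω₂, hω₂, h2⟩ := hc
    have hx : x ≠ 0 := by
      rintro rfl
      rw [map_zero] at hpx
      exact zero_ne_one hpx
    have hxe : x ≠ e := by
      rintro rfl
      rw [hpe] at hpx
      exact zero_ne_one hpx
    have hpxe : p (x + e) = 1 := by rw [map_add, hpx, hpe, add_zero]
    apply hMC.nel
    refine hRIG V e A x hMC.ef hMC.her hx hxe (F2 x hpx ⟨ω₁, hω₁, z_ne h1⟩) ?_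
      (hMC.el _ (ann_ne_top hx))
    intro f hf
    refine F2 (x + e) hpxe ⟨ω₂, hω₂, z_ne h2⟩ f ?_
    rw [add_cancel']
    exact hf
  have hcov : ∀ v, (∀ ω ∈ A, ω b v = 0) ∨ (∀ ω ∈ A, ω b (v + e) = 0) := by
    intro v
    rcases z01 (p v) with hv | hv
    · have h1 : p (x₀ + v) = 1 := by rw [map_add, hx₀, hv, add_zero]
      rcases star x₀ hx₀ with h2 | h2 <;> rcases star _ h1 with h3 | h3
      · left
        intro ω hω
        have h4 := h3 ω hω
        rw [map_add, h2 ω hω, zero_add] at h4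
        exact h4
      · right
        intro ω hω
        have h4 := h3 ω hω
        rw [add_assoc, map_add, h2 ω hω, zero_add] at h4
        exact h4
      · right
        intro ω hω
        have h4 := h3 ω hω
        have h5 := h2 ω hω
        rw [map_add] at h4 h5 ⊢
        rw [← aez.mp h4, aez.mp h5, zadd]
      · left
        intro ω hω
        have h4 := h3 ω hω
        have h5 := h2 ω hω
        rw [map_add] at h5
        rw [map_add, map_add, aez.mp h5, add_right_comm, zadd, zero_add] at h4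
        exact h4
    · exact star v hv
  -- a member which does not kill `b`
  obtain ⟨ω₀, hω₀, hne⟩ : ∃ ω₀ ∈ A, ω₀ b ≠ 0 := by
    by_contra hc
    push Not at hc
    apply ann_ne_top hb
    rw [eq_top_iff, ← hMC.top]
    exact supp_le'.mpr fun ω hω a => (hMC.ef ω hω).mem_ann (hc ω hω) a
  obtain ⟨f₀, hf₀⟩ : ∃ f₀, f₀ = ω₀ b := ⟨_, rfl⟩
  have hval : ∀ ω ∈ A, ω b e = 0 → ω b = 0 := by
    intro ω hω h
    refine LinearMap.ext fun v => ?_
    rcases hcov v with h1 | h1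
    · exact h1 ω hω
    · have h2 := h1 ω hω
      rw [map_add, h, add_zero] at h2
      exact h2
  have hf₀e : f₀ e = 1 := by
    rw [hf₀]
    by_contra h
    exact hne (hval ω₀ hω₀ (z_ne' h))
  have hf₀0 : f₀ ≠ 0 := by rw [hf₀]; exact hne
  have H0 : ∀ ω ∈ A, ω b = 0 ∨ ω b = f₀ := by
    intro ω hω
    rcases z01 (ω b e) with h | h
    · exact Or.inl (hval ω hω h)
    · right
      refine LinearMap.ext fun v => ?_
      rcases hcov v with h1 | h1
      · rw [h1 ω hω, hf₀, h1 ω₀ hω₀]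
      · have h2 := h1 ω hω
        have h3 := h1 ω₀ hω₀
        rw [map_add, h] at h2
        rw [map_add, ← hf₀, hf₀e] at h3
        rw [aez.mp h2, aez.mp h3]
  have hf₀b : f₀ b = 1 := by
    rw [hf₀, (hMC.ef ω₀ hω₀).sq b, ← hf₀, hf₀e]
  obtain ⟨x', hpx', hfx'⟩ : ∃ x', p x' = 1 ∧ f₀ x' = 1 := by
    rcases z01 (f₀ x₀) with h | h
    · exact ⟨x₀ + b, by rw [map_add, hx₀, hpb, add_zero], by rw [map_add, h, hf₀b, zero_add]⟩
    · exact ⟨x₀, hx₀, h⟩
  obtain ⟨ω', hω', hω'x⟩ := F2 x' hpx' ⟨ω₀, hω₀, by rw [← hf₀]; exact hfx'⟩ f₀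
    (by rw [map_add, hfx', hf₀e, zadd])
  obtain ⟨ω, hω, hωb, hωx⟩ := hMC.her.linked ω₀ hω₀ ω' hω' b x' (by rw [hω'x, hf₀])
  rw [← hf₀] at hωb hωx
  obtain ⟨c, hc⟩ : ∃ c, c = b + x' := ⟨_, rfl⟩
  have hpc : p c = 1 := by rw [hc, map_add, hpb, hpx', zero_add]
  have hc0 : c ≠ 0 := by
    rintro h
    rw [h, map_zero] at hpc
    exact zero_ne_one hpc
  have hωc : ω c = 0 := by rw [hc, map_add, hωb, hωx, vadd]
  obtain ⟨B, hB⟩ : ∃ B, B = res A (ann c) := ⟨_, rfl⟩
  have hmB : ∀ η : Frm V, η ∈ B ↔ η ∈ A ∧ η c = 0 := by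
    intro η
    rw [hB]
    exact mem_res_ann hMC.ef
  have hωB : ω ∈ B := (hmB ω).2 ⟨hω, hωc⟩
  have hElB : El e B := by
    rw [hB]
    exact hMC.el _ (ann_ne_top hc0)
  obtain ⟨hBef, s, hs⟩ := hNF V e B hElB
  obtain ⟨Z₁, hZ₁, ω₁, hω₁, hω₁b⟩ : ∃ Z₁ ∈ s, ∃ ω₁ ∈ res B Z₁, ω₁ b = f₀ := by
    by_contra hcon
    push Not at hcon
    have hall : ∀ Z ∈ s, ∀ η ∈ res B Z, η b = 0 := by
      intro Z hZ η hη
      exact (H0 η ((hmB η).1 hη.1).1).resolve_right (hcon Z hZ η hη)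
    have hle : B ≤ LinearMap.ker (LinearMap.applyₗ b : Frm V →ₗ[ZMod 2] Dl V) :=
      hs.2.1.le.trans (iSup₂_le fun Z hZ η hη => LinearMap.mem_ker.2 (hall Z hZ η hη))
    have h1 : ω b = 0 := LinearMap.mem_ker.1 (hle hωB)
    rw [hωb] at h1
    exact hf₀0 h1
  have hω₁A : ω₁ ∈ A := ((hmB ω₁).1 hω₁.1).1
  have hω₁c : ω₁ c = 0 := ((hmB ω₁).1 hω₁.1).2
  have hω₁ef : EF e ω₁ := hMC.ef ω₁ hω₁A
  have hf₀Z : f₀ ∈ Z₁ := by
    have := hω₁.2 b
    rwa [hω₁b] at this
  have hω₁0 : ω₁ ≠ 0 := by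
    intro h
    rw [h] at hω₁b
    exact hf₀0 hω₁b.symm
  -- `Z₁` is not a cone
  have hnc : ¬ IsCone e B Z₁ := by
    rintro ⟨p₁, h3, hp1, hp10, hp1e, hcone⟩
    rcases z01 (p₁ b) with h | h
    · have h1 := H0 _ ((hmB _).1 (hcone f₀ hf₀Z)).1
      rw [wd_val_zero h, hf₀b, one_smul] at h1
      rcases h1 with h1 | h1
      · exact hp10 h1
      · rw [h1, hf₀e] at hp1e
        exact one_ne_zero hp1e
    · have hle : Z₁ ≤ Submodule.span (ZMod 2) {p₁, f₀} := by
        intro g hg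
        have h1 := H0 _ ((hmB _).1 (hcone g hg)).1
        rw [wd_val_one' h] at h1
        rw [span_pair_mem]
        rcases z01 (g b + g e) with h2 | h2
        · rw [h2, zero_smul, add_zero] at h1
          rcases h1 with h1 | h1
          · exact Or.inl h1
          · exact Or.inr (Or.inr (Or.inl h1))
        · rw [h2, one_smul] at h1
          rcases h1 with h1 | h1
          · exact Or.inr (Or.inl (aez.mp h1))
          · right; right; right
            rw [← h1, add_comm g p₁, add_cancel_left']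
      have := finrank_pair hle
      omega
  obtain ⟨ω₂, hprim, hZsp⟩ := (hs.2.2 Z₁ hZ₁).resolve_right hnc
  have h12 : ω₁ = ω₂ := (hprim.2.2 ω₁ hω₁.1 (by
    rintro _ ⟨a, rfl⟩
    rw [← hZsp]
    exact hω₁.2 a)).resolve_left hω₁0
  subst h12
  have hres : ∀ η ∈ res B Z₁, η = 0 ∨ η = ω₁ := by
    intro η hη
    refine hprim.2.2 η hη.1 ?_
    rintro _ ⟨a, rfl⟩
    rw [← hZsp]
    exact hη.2 a
  have hZc : ∀ g ∈ Z₁, g c = 0 := by
    intro g hg
    rw [hZsp] at hg
    obtain ⟨a, rfl⟩ := hg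
    rw [hω₁ef.symm, hω₁c]
    rfl
  by_cases hI : ∃ g ∈ Z₁, g ≠ 0 ∧ g b = 0
  · obtain ⟨g, hgZ, hg0, hgb⟩ := hI
    obtain ⟨a, hpa, hωa⟩ : ∃ a, p a = 0 ∧ ω₁ a = g := by
      rw [hZsp] at hgZ
      obtain ⟨a, ha⟩ := hgZ
      rcases z01 (p a) with h | h
      · exact ⟨a, h, ha⟩
      · refine ⟨a + c, ?_, ?_⟩
        · rw [map_add, h, hpc, zadd]
        · rw [map_add, hω₁c, add_zero, ha]
    have hpx : p (e + c) = 1 := by rw [map_add, hpe, hpc, zero_add]
    have hgx : g (e + c) = g e := by rw [map_add, hZc g hgZ, add_zero]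
    have hf₀x : f₀ (e + c) = 1 := by rw [map_add, hZc f₀ hf₀Z, hf₀e, add_zero]
    obtain ⟨ζ, hζ, hζa, hζx⟩ := hMC.her.linked ω₁ hω₁A (wd e p g) (hw g hgb) a (e + c)
      (by rw [hωa, wd_val_one hpx hgx])
    rw [hωa] at hζa hζx
    obtain ⟨ε, hηb⟩ : ∃ ε : ZMod 2, (ζ + ε • ω₁) b = 0 := by
      rcases H0 ζ hζ with h | h
      · exact ⟨0, by rw [zero_smul, add_zero, h]⟩
      · exact ⟨1, by rw [one_smul, LinearMap.add_apply, h, hω₁b, vadd]⟩
    obtain ⟨η, hη⟩ : ∃ η, η = ζ + ε • ω₁ := ⟨_, rfl⟩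
    rw [← hη] at hηb
    have hηA : η ∈ A := by
      rw [hη]
      exact A.add_mem hζ (A.smul_mem _ hω₁A)
    obtain ⟨h, hh⟩ : ∃ h, h = η x' := ⟨_, rfl⟩
    have hhb : h b = 0 := by
      rw [hh, hsymm η hηA, hηb]
      rfl
    have hhx : h x' = h e := by
      rw [hh]
      exact (hMC.ef η hηA).sq x'
    obtain ⟨α, hα⟩ : ∃ α, α = η + wd e p h := ⟨_, rfl⟩
    have hαA : α ∈ A := by
      rw [hα]
      exact A.add_mem hηA (hw h hhb)
    have hαb : α b = 0 := by
      rw [hα, LinearMap.add_apply, hηb, wd_val_zero hpb, hhb, zero_smul, add_zero]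
    have hαx' : α x' = 0 := by
      rw [hα, LinearMap.add_apply, wd_val_one hpx' hhx, ← hh, vadd]
    have hαc : α c = 0 := by rw [hc, map_add, hαb, hαx', add_zero]
    have hαB : α ∈ B := (hmB α).2 ⟨hαA, hαc⟩
    obtain ⟨hsp1, hdisj, -⟩ := hSPLIT V e B s {Z₁} hBef hs (Set.singleton_subset_iff.2 hZ₁)
    rw [sSup_singleton] at hsp1 hdisj
    have hαR : ∀ v, α v ∈ sSup (s \ {Z₁}) := by
      have h1 := hαB
      rw [hsp1] at h1
      obtain ⟨α₁, hα₁, α₂, hα₂, hsum⟩ := Submodule.mem_sup.1 h1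
      rcases hres α₁ hα₁ with h2 | h2
      · rw [h2, zero_add] at hsum
        rw [← hsum]
        exact hα₂.2
      · exfalso
        have h3 : α₂ b = f₀ := by
          have h4 : α₁ b + α₂ b = 0 := by rw [← LinearMap.add_apply, hsum, hαb]
          rw [h2, hω₁b] at h4
          exact (aez.mp h4).symm
        have h5 : f₀ ∈ Z₁ ⊓ sSup (s \ {Z₁}) := ⟨hf₀Z, h3 ▸ hα₂.2 b⟩
        rw [hdisj.eq_bot] at h5
        exact hf₀0 ((Submodule.mem_bot _).1 h5)
    have hζ' : ζ = α + wd e p h + ε • ω₁ := by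
      have h1 : α + wd e p h = η := by rw [hα, frm_cancel]
      rw [h1, hη, frm_cancel]
    -- at `a`
    have ha1 : α a + h a • p + ε • g = g := by
      have h1 : ζ a = α a + wd e p h a + ε • ω₁ a := by
        conv_lhs => rw [hζ']
        rfl
      rw [hζa, wd_val_zero hpa, hωa] at h1
      exact h1.symm
    have hha : h a = 0 := by
      have h1 : α a c + h a * p c + ε * g c = g c := by
        have := congrArg (fun F : Dl V => F c) ha1
        exact this
      rw [hsymm α hαA, hαc, hZc g hgZ, hpc, mul_one, mul_zero, add_zero] at h1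
      have h2 : (0 : Dl V) a + h a = 0 := h1
      rw [LinearMap.zero_apply, zero_add] at h2
      exact h2
    have hε : ε = 1 := by
      rcases z01 ε with h1 | h1
      · exfalso
        rw [hha, zero_smul, add_zero, h1, zero_smul, add_zero] at ha1
        have h5 : g ∈ Z₁ ⊓ sSup (s \ {Z₁}) := ⟨hgZ, ha1 ▸ hαR a⟩
        rw [hdisj.eq_bot] at h5
        exact hg0 ((Submodule.mem_bot _).1 h5)
      · exact h1
    -- at `x = e + c`, evaluated at `b`
    have hx1 : ζ (e + c) b = α (e + c) b + wd e p h (e + c) b + ε * ω₁ (e + c) b := by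
      conv_lhs => rw [hζ']
      rfl
    rw [hζx, hgb, hsymm α hαA, hαb, wd_apply', hhb, hpb, hε, hω₁ef.symm, hω₁b, hf₀x] at hx1
    simp at hx1
  · push Not at hI
    have hle : sp ω₁ ≤ Submodule.span (ZMod 2) {f₀} := by
      intro g hg
      rw [← hZsp] at hg
      rw [span_one_mem]
      rcases z01 (g b) with h | h
      · left
        by_contra h0
        exact hI g hg h0 h
      · right
        by_contra h0
        have h1 : g + f₀ ≠ 0 := fun h2 => h0 (aez.mp h2)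
        exact hI (g + f₀) (Z₁.add_mem hg hf₀Z) h1 (by rw [LinearMap.add_apply, h, hf₀b, zadd])
    obtain ⟨hsq, -⟩ := hω₁ef.eq_sqf hle hω₁0
    apply hMC.nel
    have hA : A = res A (ann b) ⊔ Submodule.span (ZMod 2) {ω₁} := by
      apply le_antisymm
      · intro η hη
        rw [Submodule.mem_sup]
        rcases H0 η hη with h | h
        · exact ⟨η, (mem_res_ann hMC.ef).2 ⟨hη, h⟩, 0, Submodule.zero_mem _, add_zero η⟩
        · refine ⟨η + ω₁, (mem_res_ann hMC.ef).2 ⟨A.add_mem hη hω₁A, ?_⟩, ω₁,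
            Submodule.mem_span_singleton_self ω₁, frm_cancel _ _⟩
          rw [LinearMap.add_apply, h, hω₁b, vadd]
      · refine sup_le (res_le A _) ?_
        rw [Submodule.span_singleton_le_iff_mem]
        exact hω₁A
    rw [hA]
    refine El.prod _ _ (hMC.el _ (ann_ne_top hb)) (El.loc ω₁ hω₁ef) ?_
    have h1 : supp (Submodule.span (ZMod 2) {ω₁}) ≤ Submodule.span (ZMod 2) {f₀} := by
      rw [supp_le']
      intro η hη a
      rcases frm_span hη with h | h
      · rw [h]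
        exact Submodule.zero_mem _
      · rw [h]
        exact hle ⟨a, rfl⟩
    refine Disjoint.mono (supp_res_le A (ann b)) h1 ?_
    rw [Submodule.disjoint_def]
    intro g hg hg'
    rcases span_one_mem.1 hg' with h | h
    · exact h
    · exfalso
      rw [h, mem_ann, hf₀b] at hg
      exact one_ne_zero hg

end Pool.Agent.W589.ELG
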